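import Pool.Agent.Helper32.B4.St

set_option autoImplicit false

open Metric Set Filter Topology MeasureTheory
open scoped ComplexConjugate Interval

namespace Pool.Agent.Helper28.B4

open Pool.Agent.Helper32.B4 Pool.Agent.Helper32.DX Pool.Agent.Helper64.C3

theorem int_cx {f : ℝ → ℂ} {p q : ℝ → ℝ} {a b : ℝ} (hp : IntervalIntegrable p volume a b)
    (hq : IntervalIntegrable q volume a b)
    (h : ∀ u, f u = (p u : ℂ) + (q u : ℂ) * Complex.I) :
    (∫ u in a..b, f u) =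
      ((∫ u in a..b, p u : ℝ) : ℂ) + ((∫ u in a..b, q u : ℝ) : ℂ) * Complex.I := by
  have : (fun u => f u) = fun u => (p u : ℂ) + (q u : ℂ) * Complex.I := funext h
  have hp' : IntervalIntegrable (fun u => (p u : ℂ)) volume a b := ⟨hp.1.ofReal, hp.2.ofReal⟩
  have hq' : IntervalIntegrable (fun u => (q u : ℂ)) volume a b := ⟨hq.1.ofReal, hq.2.ofReal⟩
  rw [this, intervalIntegral.integral_add hp' (hq'.mul_const _),
    intervalIntegral.integral_mul_const, intervalIntegral.integral_ofReal,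
    intervalIntegral.integral_ofReal]

/-- bounded and measurable on the unit interval -/
def Bd (g : ℝ → ℝ) : Prop := Measurable g ∧ ∃ C, ∀ u ∈ Ι (0:ℝ) 1, ‖g u‖ ≤ C

theorem Bd.ii {g : ℝ → ℝ} (h : Bd g) : IntervalIntegrable g volume 0 1 := by
  obtain ⟨hm, C, hC⟩ := h
  exact ii_of_bdd hm.aestronglyMeasurable hC

theorem Bd.mul {f g : ℝ → ℝ} (hf : Bd f) (hg : Bd g) : Bd (fun u => f u * g u) := by
  obtain ⟨hm, C, hC⟩ := hf
  obtain ⟨hm', C', hC'⟩ := hg
  refine ⟨hm.mul hm', C * C', fun u hu => ?_⟩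
  rw [norm_mul]
  exact mul_le_mul (hC u hu) (hC' u hu) (norm_nonneg _) ((norm_nonneg _).trans (hC u hu))

theorem Bd.add {f g : ℝ → ℝ} (hf : Bd f) (hg : Bd g) : Bd (fun u => f u + g u) := by
  obtain ⟨hm, C, hC⟩ := hf
  obtain ⟨hm', C', hC'⟩ := hg
  exact ⟨hm.add hm', C + C', fun u hu => (norm_add_le _ _).trans (add_le_add (hC u hu) (hC' u hu))⟩

theorem Bd.sub {f g : ℝ → ℝ} (hf : Bd f) (hg : Bd g) : Bd (fun u => f u - g u) := by
  obtain ⟨hm, C, hC⟩ := hf
  obtain ⟨hm', C', hC'⟩ := hg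
  exact ⟨hm.sub hm', C + C', fun u hu => (norm_sub_le _ _).trans (add_le_add (hC u hu) (hC' u hu))⟩

theorem Bd.pow {f : ℝ → ℝ} (hf : Bd f) : ∀ k : ℕ, Bd (fun u => f u ^ k)
  | 0 => ⟨by simpa using measurable_const, 1, fun u _ => by simp⟩
  | k + 1 => by
    simp only [pow_succ]
    exact (Bd.pow hf k).mul hf

theorem Bd.const (c : ℝ) : Bd (fun _ => c) := ⟨measurable_const, ‖c‖, fun _ _ => le_rfl⟩

theorem Bd.cont {g : ℝ → ℝ} (hg : Continuous g) : Bd g := by
  refine ⟨hg.measurable, ?_⟩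
  obtain ⟨C, hC⟩ := (isCompact_Icc (a := (0:ℝ)) (b := 1)).exists_bound_of_continuousOn
    hg.continuousOn
  refine ⟨C, fun u hu => hC u ?_⟩
  rw [uIoc_of_le zero_le_one] at hu
  exact ⟨hu.1.le, hu.2⟩

theorem Bd.id : Bd (fun u => u) := Bd.cont continuous_id

theorem bd_nu {θ : ℝ → ℝ} (hθ : Measurable θ) : Bd (nu θ) :=
  ⟨meas_nu hθ, 2, fun u _ => by
    rw [Real.norm_eq_abs, abs_le]
    constructor <;> linarith [nu_nonneg θ u, nu_le θ u]⟩

theorem bd_sn {θ : ℝ → ℝ} (hθ : Measurable θ) : Bd (sn θ) :=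
  ⟨meas_sn hθ, 1, fun u _ => abs_sn_le θ u⟩

theorem bd_cs {θ : ℝ → ℝ} (hθ : Measurable θ) : Bd (cs θ) :=
  ⟨meas_cs hθ, 1, fun u _ => abs_cs_le θ u⟩

theorem ii_nu {θ : ℝ → ℝ} (hθ : Measurable θ) (a b : ℝ) : IntervalIntegrable (nu θ) volume a b :=
  ii_of_bdd (C := 2) (meas_nu hθ).aestronglyMeasurable (fun u _ => by
    rw [Real.norm_eq_abs, abs_le]
    constructor <;> linarith [nu_nonneg θ u, nu_le θ u])

theorem ii_sn {θ : ℝ → ℝ} (hθ : Measurable θ) (a b : ℝ) : IntervalIntegrable (sn θ) volume a b :=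
  ii_of_bdd (C := 1) (meas_sn hθ).aestronglyMeasurable (fun u _ => abs_sn_le θ u)

theorem c0_eq {θ : ℝ → ℝ} (hθ : Measurable θ) (v : ℝ) :
    c0 θ v = ((-2 * (1 - v - tl (nu θ) v) : ℝ) : ℂ) + ((-2 * tl (sn θ) v : ℝ) : ℂ) * Complex.I := by
  have h1 : IntervalIntegrable (fun u => 1 - nu θ u) volume v 1 :=
    (intervalIntegrable_const).sub (ii_nu hθ v 1)
  rw [c0, int_cx h1 (ii_sn hθ v 1) (fun u => ee_eq θ u),
    intervalIntegral.integral_sub intervalIntegrable_const (ii_nu hθ v 1),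
    intervalIntegral.integral_const]
  simp only [tl, smul_eq_mul, mul_one]
  push_cast
  ring

theorem parts {g : ℝ → ℝ} (hg : ∀ a b : ℝ, IntervalIntegrable g volume a b) :
    ∫ v in (0:ℝ)..1, (-(4 * v * tl g v) + 2 * v ^ 2 * g v) = 0 := by
  have hc : (1:ℝ) ∈ uIcc (0:ℝ) 1 := right_mem_uIcc
  have hT : tl g = fun u => -∫ v in (1:ℝ)..u, g v := by
    funext u
    rw [tl, intervalIntegral.integral_symm]
  have h1 : AbsolutelyContinuousOnInterval (tl g) 0 1 := by
    rw [hT]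
    exact ((hg 0 1).absolutelyContinuousOnInterval_intervalIntegral hc).neg
  have h2 : AbsolutelyContinuousOnInterval (fun x : ℝ => -(2 * x ^ 2)) 0 1 := by
    have h3 := ((Continuous.intervalIntegrable (μ := volume) (u := fun x : ℝ => -(4 * x))
      (by fun_prop) 0 1)).absolutelyContinuousOnInterval_intervalIntegral (left_mem_uIcc)
    have h4 : (fun x : ℝ => ∫ v in (0:ℝ)..x, -(4 * v)) = fun x : ℝ => -(2 * x ^ 2) := by
      funext x
      rw [intervalIntegral.integral_neg, intervalIntegral.integral_const_mul, integral_id]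
      ring
    rwa [h4] at h3
  have h5 := AbsolutelyContinuousOnInterval.integral_deriv_mul_eq_sub h2 h1
  have h6 : tl g 1 = 0 := by simp [tl]
  rw [h6] at h5
  have h7 : (∫ v in (0:ℝ)..1, (-(4 * v * tl g v) + 2 * v ^ 2 * g v)) =
      ∫ x in (0:ℝ)..1, deriv (fun x : ℝ => -(2 * x ^ 2)) x * tl g x +
        -(2 * x ^ 2) * deriv (tl g) x := by
    apply intervalIntegral.integral_congr_ae
    filter_upwards [(hg 0 1).ae_hasDerivAt_integral] with x hx hx'
    have k := hx (uIoc_subset_uIcc hx') 1 hc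
    have k2 : HasDerivAt (tl g) (-g x) x := by
      rw [hT]
      exact k.neg
    have k3 : HasDerivAt (fun x : ℝ => -(2 * x ^ 2)) (-(4 * x)) x := by
      have := ((hasDerivAt_pow 2 x).const_mul (2:ℝ)).neg
      refine this.congr_deriv ?_
      push_cast
      ring
    rw [k2.deriv, k3.deriv]
    ring
  rw [h7, h5]
  ring

theorem hRE : StRE := by
  intro θ hθ
  have bn := bd_nu hθ
  have bs := bd_sn hθ
  have bc := bd_cs hθ
  have bD : Bd (tl (nu θ)) := Bd.cont (continuous_tl (ii_nu hθ))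
  have bY : Bd (tl (sn θ)) := Bd.cont (continuous_tl (ii_sn hθ))
  have bi := Bd.id
  have e1 : c1 θ 0 = ((1 - 4 * fZ θ : ℝ) : ℂ) + ((4 * fT θ : ℝ) : ℂ) * Complex.I := by
    have hp : Bd (fun v => v * (1 - 2 * sn θ v ^ 2)) :=
      bi.mul ((Bd.const 1).sub ((Bd.const 2).mul (bs.pow 2)))
    have hq : Bd (fun v => v * (2 * sn θ v * cs θ v)) :=
      bi.mul (((Bd.const 2).mul bs).mul bc)
    rw [c1, int_cx hp.ii hq.ii]
    · have i1 : ∫ v in (0:ℝ)..1, v * (1 - 2 * sn θ v ^ 2) = 1 / 2 - 2 * fZ θ := by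
        have : (fun v => v * (1 - 2 * sn θ v ^ 2)) = fun v => v - 2 * (v * sn θ v ^ 2) := by
          funext v
          ring
        rw [this, intervalIntegral.integral_sub bi.ii ((Bd.const 2).mul (bi.mul (bs.pow 2))).ii,
          intervalIntegral.integral_const_mul, integral_id, fZ]
        norm_num
      have i2 : ∫ v in (0:ℝ)..1, v * (2 * sn θ v * cs θ v) = 2 * fT θ := by
        have : (fun v => v * (2 * sn θ v * cs θ v)) = fun v => 2 * (v * sn θ v * cs θ v) := by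
          funext v
          ring
        rw [this, intervalIntegral.integral_const_mul, fT]
      rw [i1, i2]
      push_cast
      ring
    · intro u
      have h1 : ((cs θ u : ℝ) : ℂ) = 1 - (nu θ u : ℂ) := by
        rw [cs_eq]
        push_cast
        ring
      have h2 : ((sn θ u : ℝ) : ℂ) ^ 2 = (nu θ u : ℂ) * (2 - nu θ u) := by
        exact_mod_cast congrArg (fun x : ℝ => (x : ℂ)) (sn_sq θ u)
      rw [ee_eq]
      push_cast
      rw [h1]
      linear_combination (u : ℂ) * (sn θ u : ℂ) ^ 2 * Complex.I_sq + (u : ℂ) * h2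
  have e2 : (c2 θ 0).re = (∫ u in (0:ℝ)..1, (16 * u ^ 2 - 8 * u) * sn θ u ^ 2)
      - 8 * fA θ + 8 * fW θ - 8 * fV θ := by
    have bx : Bd (fun v => -2 * (1 - v - tl (nu θ) v)) :=
      (Bd.const (-2)).mul (((Bd.const 1).sub bi).sub bD)
    have by' : Bd (fun v => -2 * tl (sn θ) v) := (Bd.const (-2)).mul bY
    have hp : Bd (fun v => v * ((cs θ v ^ 2 - sn θ v ^ 2) * (-2 * (1 - v - tl (nu θ) v)) -
        2 * cs θ v * sn θ v * (-2 * tl (sn θ) v)) +
        v ^ 2 * (cs θ v ^ 3 - 3 * cs θ v * sn θ v ^ 2)) :=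
      (bi.mul ((((bc.pow 2).sub (bs.pow 2)).mul bx).sub
        ((((Bd.const 2).mul bc).mul bs).mul by'))).add
        ((bi.pow 2).mul ((bc.pow 3).sub (((Bd.const 3).mul bc).mul (bs.pow 2))))
    have hq : Bd (fun v => v * ((cs θ v ^ 2 - sn θ v ^ 2) * (-2 * tl (sn θ) v) +
        2 * cs θ v * sn θ v * (-2 * (1 - v - tl (nu θ) v))) +
        v ^ 2 * (3 * cs θ v ^ 2 * sn θ v - sn θ v ^ 3)) :=
      (bi.mul ((((bc.pow 2).sub (bs.pow 2)).mul by').add
        ((((Bd.const 2).mul bc).mul bs).mul bx))).add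
        ((bi.pow 2).mul ((((Bd.const 3).mul (bc.pow 2)).mul bs).sub (bs.pow 3)))
    have hI := int_cx (f := fun v => (v : ℂ) * ee θ v ^ 2 * c0 θ v + (v : ℂ) ^ 2 * ee θ v ^ 3)
      hp.ii hq.ii (by
        intro u
        have h1 : ee θ u = (cs θ u : ℂ) + (sn θ u : ℂ) * Complex.I := by
          rw [ee_eq, cs_eq]
        simp only [h1, c0_eq hθ]
        push_cast
        set X : ℂ := (cs θ u : ℂ)
        set S : ℂ := (sn θ u : ℂ)
        set P : ℂ := (tl (nu θ) u : ℂ)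
        set Q : ℂ := (tl (sn θ) u : ℂ)
        linear_combination (((u : ℂ) * (S ^ 2 * (-2 * (1 - u - P)) + 2 * X * S * (-2 * Q)) +
          3 * (u : ℂ) ^ 2 * X * S ^ 2) + ((u : ℂ) * S ^ 2 * (-2 * Q) +
          (u : ℂ) ^ 2 * S ^ 3) * Complex.I) * Complex.I_sq)
    have hre : (c2 θ 0).re = -(2 * ∫ v in (0:ℝ)..1, (v * ((cs θ v ^ 2 - sn θ v ^ 2) *
        (-2 * (1 - v - tl (nu θ) v)) - 2 * cs θ v * sn θ v * (-2 * tl (sn θ) v)) +
        v ^ 2 * (cs θ v ^ 3 - 3 * cs θ v * sn θ v ^ 2))) := by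
      rw [c2, hI]
      simp
    rw [hre]
    have bA : Bd (fun u => u ^ 2 * sn θ u ^ 2 * nu θ u) := ((bi.pow 2).mul (bs.pow 2)).mul bn
    have bW : Bd (fun u => u * sn θ u ^ 2 * tl (nu θ) u) := (bi.mul (bs.pow 2)).mul bD
    have bV : Bd (fun u => u * sn θ u * cs θ u * tl (sn θ) u) := ((bi.mul bs).mul bc).mul bY
    have b0 : Bd (fun u => (16 * u ^ 2 - 8 * u) * sn θ u ^ 2) :=
      (((Bd.const 16).mul (bi.pow 2)).sub ((Bd.const 8).mul bi)).mul (bs.pow 2)
    have bp : Bd (fun v => -(4 * v * tl (nu θ) v) + 2 * v ^ 2 * nu θ v) := by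
      have h := ((Bd.const 0).sub (((Bd.const 4).mul bi).mul bD)).add
        (((Bd.const 2).mul (bi.pow 2)).mul bn)
      simpa only [zero_sub] using h
    have bq : Bd (fun v : ℝ => 4 * v - 6 * v ^ 2) :=
      ((Bd.const 4).mul bi).sub ((Bd.const 6).mul (bi.pow 2))
    have j1 : ∫ v in (0:ℝ)..1, (4 * v - 6 * v ^ 2) = 0 := by
      rw [intervalIntegral.integral_sub ((Bd.const 4).mul bi).ii ((Bd.const 6).mul (bi.pow 2)).ii,
        intervalIntegral.integral_const_mul, intervalIntegral.integral_const_mul, integral_id,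
        integral_pow]
      norm_num
    have j2 := parts (ii_nu hθ)
    have j3 : -(2 * ∫ v in (0:ℝ)..1, (v * ((cs θ v ^ 2 - sn θ v ^ 2) *
        (-2 * (1 - v - tl (nu θ) v)) - 2 * cs θ v * sn θ v * (-2 * tl (sn θ) v)) +
        v ^ 2 * (cs θ v ^ 3 - 3 * cs θ v * sn θ v ^ 2))) =
        ∫ v in (0:ℝ)..1, (((((16 * v ^ 2 - 8 * v) * sn θ v ^ 2 -
          8 * (v ^ 2 * sn θ v ^ 2 * nu θ v)) + 8 * (v * sn θ v ^ 2 * tl (nu θ) v)) -
          8 * (v * sn θ v * cs θ v * tl (sn θ) v)) + (4 * v - 6 * v ^ 2)) +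
          (-(4 * v * tl (nu θ) v) + 2 * v ^ 2 * nu θ v) := by
      rw [← intervalIntegral.integral_const_mul, ← intervalIntegral.integral_neg]
      apply intervalIntegral.integral_congr
      intro v _
      have hs := sn_sq θ v
      simp only [cs_eq]
      linear_combination (4 * v - 6 * v ^ 2 - 4 * v * tl (nu θ) v + 2 * v ^ 2 * nu θ v) * hs
    have k8 := Bd.const 8
    rw [j3, intervalIntegral.integral_add
        (((((b0.sub (k8.mul bA)).add (k8.mul bW)).sub (k8.mul bV)).add bq)).ii bp.ii, j2,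
      intervalIntegral.integral_add
        ((((b0.sub (k8.mul bA)).add (k8.mul bW)).sub (k8.mul bV))).ii bq.ii, j1,
      intervalIntegral.integral_sub (((b0.sub (k8.mul bA)).add (k8.mul bW))).ii (k8.mul bV).ii,
      intervalIntegral.integral_add ((b0.sub (k8.mul bA))).ii (k8.mul bW).ii,
      intervalIntegral.integral_sub b0.ii (k8.mul bA).ii,
      intervalIntegral.integral_const_mul, intervalIntegral.integral_const_mul,
      intervalIntegral.integral_const_mul, fA, fW, fV]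
    ring
  refine ⟨?_, ?_, ?_, ?_, e2⟩
  · rw [c0_eq hθ]
    simp [fD, tl]
  · rw [c0_eq hθ]
    simp [fY, tl]
  · rw [e1]
    simp
  · rw [e1]
    simp

end Pool.Agent.Helper28.B4
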